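import Pool.Agent.Lib.MP_a5a405_co.G.Final

namespace Pool.Agent.Results.MP_a5a405_co.LocalGlobal

/-- The system a_i x_i + b_i y_i = c_i w_i z_i ^ n is partition regular over the nonzero integers
if and only if, for every prime p, some rational number that is an n-th power in the p-adic numbers
lies in the set of ratios of every equation with a_i + b_i different from zero. -/
theorem result (k : ℕ) (a b c : Fin k → ℤ) (n : ℕ) (habc : ∀ i, a i ≠ 0 ∧ b i ≠ 0 ∧ c i ≠ 0)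
    (hn : 1 ≤ n) :
    (∀ (r : ℕ) (χ : ℤ → Fin r), ∃ (x y w z : Fin k → ℤ) (col : Fin r), ∀ i,
      x i ≠ 0 ∧ y i ≠ 0 ∧ w i ≠ 0 ∧ z i ≠ 0 ∧ a i * x i + b i * y i = c i * w i * z i ^ n ∧
      χ (x i) = col ∧ χ (y i) = col ∧ χ (w i) = col ∧ χ (z i) = col) ↔
    ∀ (p : ℕ) [Fact p.Prime], ∃ q : ℚ, (∃ t : ℚ_[p], t ^ n = q) ∧ ∀ i, a i + b i ≠ 0 →
      (q = (a i : ℚ) / c i ∨ q = (b i : ℚ) / c i ∨ q = ((a i : ℚ) + b i) / c i) := by
  constructor
  · intro h p _
    obtain ⟨q, h1, h2⟩ := Pool.Agent.Lib.MP_a5a405_co.PR.G.necessary (ι := {i // a i + b i ≠ 0})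
      hn (fun i => a i) (fun i => b i) (fun i => c i) (fun i => (habc i).1) (fun i => (habc i).2.1)
      (fun i => (habc i).2.2) (fun i => i.2) p fun r χ => by
        obtain ⟨x, y, w, z, col, h1⟩ := h r χ
        exact ⟨fun i => x i, fun i => y i, fun i => w i, fun i => z i, col, fun i => h1 i⟩
    exact ⟨q, h1, fun i hi => h2 ⟨i, hi⟩⟩
  · intro h r χ
    exact Pool.Agent.Lib.MP_a5a405_co.PR.G.sufficient hn a b c (fun i => (habc i).1)
      (fun i => (habc i).2.1) (fun i => (habc i).2.2) h χ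

end Pool.Agent.Results.MP_a5a405_co.LocalGlobal
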