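import Pool.Agent.Lib.MP_a5a405_co.Main
import Pool.Agent.Lib.MP_a5a405_co.NotPow

namespace Pool.Agent.Results.MP_a5a405_co.Regular1617

/-- The equation 16 x + 17 y = w z ^ 8 has a monochromatic solution in positive integers for every
finite colouring, although none of 16, 17, 16 + 17 is the eighth power of a rational number. -/
theorem result :
    (∀ (r : ℕ) (χ : ℤ → Fin r), ∃ x y w z : ℤ, 0 < x ∧ 0 < y ∧ 0 < w ∧ 0 < z ∧
      16 * x + 17 * y = w * z ^ 8 ∧ χ x = χ z ∧ χ y = χ z ∧ χ w = χ z) ∧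
    ¬ ∃ q : ℚ, q ^ 8 = 16 ∨ q ^ 8 = 17 ∨ q ^ 8 = 16 + 17 := by
  constructor
  · intro r χ
    obtain ⟨x, y, w, z, hx, hy, hw, hz, h, h1, h2, h3⟩ :=
      Pool.Agent.Lib.MP_a5a405_co.PR.partition_regular r fun n => χ n
    exact ⟨x, y, w, z, by exact_mod_cast hx, by exact_mod_cast hy, by exact_mod_cast hw,
      by exact_mod_cast hz, by exact_mod_cast h, h1, h2, h3⟩
  · rintro ⟨q, h | h | h⟩
    · exact Pool.Agent.Lib.MP_a5a405_co.PR.not_pow_eight (c := 16) (by norm_num) (by norm_num)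
        (by exact_mod_cast h)
    · exact Pool.Agent.Lib.MP_a5a405_co.PR.not_pow_eight (c := 17) (by norm_num) (by norm_num)
        (by exact_mod_cast h)
    · exact Pool.Agent.Lib.MP_a5a405_co.PR.not_pow_eight (c := 33) (by norm_num) (by norm_num)
        (by rw [h]; norm_num)

end Pool.Agent.Results.MP_a5a405_co.Regular1617
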